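import Pool.Agent.Lib.UncGS.Defs

/-!
# Fractional Gyarfas-Sumner, uncontrolled case: statements of the modules
-/

set_option autoImplicit false

namespace Pool.Agent.Lib.UncGS

open Finset Classical
open Pool.Agent.Lib.FracGS (nb wnb om TAdj Near Radius Scheme Rich State ThA pat)
open Pool.Agent.Lib.GSR3 (Stab Small EqOrDisj ProperOn ExactCover app Word Tree)

/-- Module `Win`: a window of weights is small. -/
def StWin : Prop :=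
  ∀ (V : Type) [Fintype V] (G : SimpleGraph V) (U : Finset V) (ν : V → ℝ) (s c : ℝ), 0 < s →
    0 ≤ c → (∀ v, 0 ≤ ν v) → NE G U c →
      Small G (U.filter (fun u => s ≤ wnb G U ν u ∧ wnb G U ν u ≤ 2 * s)) (16 * c)

/-- Module `Cov`: a cover contains a stable set covering a proportion `1 / c` of the weight. -/
def StCov : Prop :=
  ∀ (V : Type) [Fintype V] (G : SimpleGraph V) (U S D : Finset V) (α : V → ℝ) (c : ℝ), 0 ≤ c →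
    NE G U c → S ⊆ U → D ⊆ U → Disjoint S D → (∀ p ∈ S, ∃ q ∈ D, G.Adj p q) →
      (∀ v, 0 ≤ α v) → ∃ I, I ⊆ D ∧ Stab G I ∧
        ∑ p ∈ S, α p ≤ c * ∑ p ∈ S.filter (fun p => ∃ q ∈ I, G.Adj p q), α p

/-- Module `Giant`: the optimal measures; `X` is stable and the vertices of `A` see little `ζ`. -/
def StGiant : Prop :=
  ∀ (V : Type) [Fintype V] (G : SimpleGraph V) (U : Finset V) (μ : V → ℝ) (c : ℝ) (n : ℕ),
    1 ≤ c → 1 ≤ n → (∀ v, 0 ≤ μ v) → ∑ v ∈ U, μ v = 1 → (∀ u ∈ U, ∃ v ∈ U, G.Adj u v) →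
      NE G U c → (∀ I, I ⊆ U → Stab G I → 2 * (16 * c * n) ^ 2 * ∑ v ∈ I, μ v ≤ 1) →
        ∃ (A X : Finset V) (μ' α ζ : V → ℝ), A ⊆ U ∧ X ⊆ U ∧ Disjoint A X ∧ Stab G X ∧
          (∀ v, 0 ≤ μ' v) ∧ (∀ v ∈ A, μ' v ≤ μ v) ∧ (∀ v, 0 ≤ α v) ∧ (∀ v, 0 ≤ ζ v) ∧
          ∑ x ∈ X, α x ≤ 1 ∧ (∀ a ∈ A, μ' a = ζ a * wnb G X α a) ∧
          (∀ x ∈ X, wnb G A ζ x ≤ 1) ∧ (∀ u ∈ A, wnb G A ζ u ≤ 1 / 2 ^ n) ∧
          (∀ a ∈ A, ∃ x ∈ X, G.Adj a x) ∧ 1 ≤ 2 * (16 * c * n) * ∑ a ∈ A, μ' a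

/-- Module `Embed`: the embedding lemma. -/
def StEmbedU : Prop :=
  ∀ d k : ℕ, 1 ≤ d → ∃ c1 : ℝ, 0 < c1 ∧ ∀ θ : ℝ, 0 < θ → θ ≤ 1 →
    ∃ (δ : ℝ) (K : ℕ) (κ : ℝ), 0 < δ ∧ δ < θ ∧ 0 < κ ∧
      ∀ (V : Type) [Fintype V] (G : SimpleGraph V) (A X : Finset V) (ζ : V → ℝ),
        Disjoint A X → Stab G X → (∀ v, 0 ≤ ζ v) → (∀ a ∈ A, ζ a ≤ κ) →
        (∀ x ∈ X, θ ≤ wnb G A ζ x ∧ wnb G A ζ x ≤ 1) → (∀ u ∈ A, wnb G A ζ u ≤ c1 * θ) →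
        (∀ φ : List (Fin k) → V, ¬ Tree G d k φ) →
        ∀ x ∈ X, wnb G A ζ x ≤
          2 * ∑ q ∈ (nb G A x).filter (fun q => ¬ Rich G A X ζ δ K ((d - 1) / 2) q ∅), ζ q

/-- Module `VC`: bounded VC dimension. -/
def StVCU : Prop :=
  ∀ (d k : ℕ) (κ : ℝ), 1 ≤ κ → ∃ D : ℕ, ∀ (V : Type) [Fintype V] (G : SimpleGraph V)
    (A X : Finset V), Disjoint A X → Stab G X → (∀ p ∈ X, Small G (nb G A p) κ) →
      (∀ φ : List (Fin k) → V, ¬ Tree G d k φ) →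
        ∀ U ⊆ A, D ≤ U.card → ∃ T ⊆ U, ∀ p ∈ X, nb G U p ≠ T

/-- Module `Phases`. -/
def StPhasesU : Prop :=
  ∀ d k : ℕ, ThA d k → ∃ R : ℕ, 1 ≤ R ∧ ∀ (K N i : ℕ) (θ c : ℝ), 0 < θ → 1 ≤ c →
    ∃ c' : ℝ, 0 < c' ∧
      ∀ (V : Type) [Fintype V] (G : SimpleGraph V) (U A X Xn Z : Finset V) (μ α ζ : V → ℝ)
        (δ : ℝ), CtxU G U A X Xn Z μ α ζ δ θ c d k N →
          ∀ (P : Finset V) (ℓ : V → ℕ) (F : V → Finset V), State G A X Xn ζ δ K R i P ℓ F →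
            ∃ (A' X' : Finset V) (g : V → ℕ), Scheme G A X R A' X' g ∧
              c' * ∑ x ∈ P, α x ≤ ∑ a ∈ A', μ a

/-- Module `Main`: a heavy stable set or a scheme serving a proportion of the weight. -/
def StMainU : Prop :=
  ∀ d k : ℕ, 1 ≤ d → 2 ≤ k → ∃ R : ℕ, 1 ≤ R ∧ ∀ κ c : ℝ, 1 ≤ κ → 1 ≤ c → ∃ C : ℝ, 1 ≤ C ∧
    ∀ (V : Type) [Fintype V] (G : SimpleGraph V) (U : Finset V),
      (∀ v ∈ U, Small G (nb G U v) κ) → NE G U c → (∀ φ : List (Fin k) → V, ¬ Tree G d k φ) →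
        ∀ μ : V → ℝ, (∀ v, 0 ≤ μ v) →
          (∃ I, I ⊆ U ∧ Stab G I ∧ ∑ v ∈ U, μ v ≤ C * ∑ v ∈ I, μ v) ∨
          ∃ (A' X' : Finset V) (g : V → ℕ), Scheme G U U R A' X' g ∧ Disjoint A' X' ∧
            ∑ v ∈ U, μ v ≤ C * ∑ v ∈ A', μ v

/-- Module `HasLab`: covers exact up to labels exist. -/
def StHasLab : Prop :=
  ∀ d k : ℕ, 1 ≤ d → 2 ≤ k → ∃ R : ℕ, 1 ≤ R ∧ ∀ κ : ℝ, 1 ≤ κ → ∃ f : ℝ → ℝ,
    (∀ c, 0 ≤ f c) ∧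
    ∀ (V : Type) [Fintype V] (G : SimpleGraph V) (U : Finset V),
      (∀ v ∈ U, Small G (nb G U v) κ) → (∀ φ : List (Fin k) → V, ¬ Tree G d k φ) →
        HasLab G R U f

/-- Module `TreeChain`: a chain contains every tree. -/
def StTreeL : Prop :=
  ∀ (V : Type) (G : SimpleGraph V) (R : ℕ) (x g : ℕ → V → V) (A : ℕ → Finset V) (n : ℕ)
    (par : ℕ → ℕ), (∀ j, 1 ≤ j → par j < j) → IsChainL G R x g A n → (A n).Nonempty →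
      Nonempty (pat par (n + 1) ↪g G)

/-- Module `ChainEx`: covers exact up to labels give chains. -/
def StChainL : Prop :=
  ∀ (n : ℕ) (par : ℕ → ℕ) (R : ℕ) (κ : ℝ) (f : ℝ → ℝ), (∀ j, 1 ≤ j → par j < j) → 0 ≤ κ →
    (∀ c, 0 ≤ f c) → ∃ F : ℝ, 0 ≤ F ∧ ∀ (V : Type) [Fintype V] (G : SimpleGraph V)
      (U : Finset V), (∀ v, Small G (ball G U R v) κ) → HasLab G R U f →
        IsEmpty (pat par (n + 1) ↪g G) → Small G U F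

/-- Module `Pat`: the tree of words contains the small trees. -/
def StPatW : Prop :=
  ∀ (par : ℕ → ℕ) (n : ℕ), (∀ j, 1 ≤ j → par j < j) → ∀ (V : Type) (G : SimpleGraph V)
    (φ : List (Fin (n + 2)) → V), Tree G (n + 1) (n + 2) φ → Nonempty (pat par (n + 1) ↪g G)

/-- Module `Unc`: Theorem U for trees. -/
def StUnc : Prop :=
  ∀ (par : ℕ → ℕ) (n : ℕ), (∀ j, 1 ≤ j → par j < j) → ∃ R : ℕ, ∀ κ : ℝ, ∃ C : ℝ, 0 ≤ C ∧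
    ∀ (V : Type) [Fintype V] (G : SimpleGraph V), (∀ v, Small G (ball G Finset.univ R v) κ) →
      IsEmpty (pat par (n + 1) ↪g G) → Small G Finset.univ C

end Pool.Agent.Lib.UncGS
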