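import Pool.Agent.Lib.FracGS.Spec
import Pool.Agent.Lib.GSR3.Base

/-!
# Fractional Gyarfas-Sumner, uncontrolled case: definitions

`Small G A c` (from `GSR3`) says that the fractional chromatic number of `G[A]` is at most `c`.
-/

set_option autoImplicit false

namespace Pool.Agent.Lib.UncGS

open Finset Classical
open Pool.Agent.Lib.FracGS (nb wnb om TAdj Near Radius)
open Pool.Agent.Lib.GSR3 (Stab Small EqOrDisj ProperOn ExactCover app Word Tree)

/-- All the sets with an exact cover inside `U` are `c`-small. -/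
def NE {V : Type} (G : SimpleGraph V) (U : Finset V) (c : ℝ) : Prop :=
  ∀ B x, ExactCover G U B x → Small G B c

/-- The vertices of `U` at distance at most `R` from `v`. -/
noncomputable def ball {V : Type} (G : SimpleGraph V) (U : Finset V) (R : ℕ) (v : V) : Finset V :=
  U.filter (fun u => Near G R v u)

/-- Inside `A`, the vertices `x a` (`a ∈ B`) form a cover of `B` which is exact up to the labels
`g`: if `x a` is a neighbour of `b` then `a` and `b` have the same label.  The classes of the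
labelling `g` of `B` lie in balls of radius `R`. -/
structure LabCover {V : Type} (G : SimpleGraph V) (R : ℕ) (A B : Finset V) (x g : V → V) :
    Prop where
  sub : B ⊆ A
  mem : ∀ a ∈ B, x a ∈ A
  out : ∀ a ∈ B, ∀ b ∈ B, x a ≠ b
  adj : ∀ a ∈ B, G.Adj (x a) a
  exact : ∀ a ∈ B, ∀ b ∈ B, G.Adj (x a) b → g a = g b
  rad : ∀ u, ∃ c, ∀ a ∈ B, g a = u → Near G R c a

/-- If all the sets with a cover exact up to labels of radius `R` are `c`-small, then the set is
`f c`-small. -/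
def HasLab {V : Type} (G : SimpleGraph V) (R : ℕ) (U : Finset V) (f : ℝ → ℝ) : Prop :=
  ∀ A, A ⊆ U → ∀ c : ℝ, 0 ≤ c → (∀ B x g, LabCover G R A B x g → Small G B c) →
    Small G A (f c)

/-- A chain `A 0 ⊇ A 1 ⊇ ... ⊇ A n` of covers exact up to labels. -/
structure IsChainL {V : Type} (G : SimpleGraph V) (R : ℕ) (x g : ℕ → V → V) (A : ℕ → Finset V)
    (n : ℕ) : Prop where
  cover : ∀ i < n, LabCover G R (A i) (A (i + 1)) (x (i + 1)) (g (i + 1))
  proper : ∀ i < n, ProperOn G (A (i + 1)) (g (i + 1))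
  sep : ∀ i ≤ n, ∀ l, 1 ≤ l → l ≤ i → ∀ v w, Word l i v → Word l i w →
    EqOrDisj (A i) (fun b => g l (app x v b)) (fun b => g l (app x w b))

/-- The situation in the phases. -/
structure CtxU {V : Type} (G : SimpleGraph V) (U A X Xn Z : Finset V) (μ α ζ : V → ℝ)
    (δ θ c : ℝ) (d k N : ℕ) : Prop where
  disj : Disjoint A X
  AU : A ⊆ U
  XU : X ⊆ U
  stX : Stab G X
  ne : NE G U c
  μ0 : ∀ v, 0 ≤ μ v
  α0 : ∀ v, 0 ≤ α v
  ζ0 : ∀ v, 0 ≤ ζ v
  mass : ∀ Q ⊆ A, ∑ x ∈ X, α x * wnb G Q ζ x ≤ ∑ a ∈ Q, μ a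
  low : ∀ x ∈ X, θ ≤ wnb G A ζ x
  δ1 : δ < θ
  XnX : Xn ⊆ X
  ZA : Z ⊆ A
  net : ∀ x ∈ Xn, (nb G Z x).card ≤ N
  hit : ∀ x ∈ Xn, ∀ p ∈ X, δ < om G A ζ x p → ∃ z ∈ Z, G.Adj z x ∧ G.Adj z p
  noTree : ∀ φ : List (Fin k) → V, ¬ Tree G d k φ

end Pool.Agent.Lib.UncGS
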